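import Mathlib

namespace Pool.Agent.Results.MP_dfec24_co.Counter

/-- The operation `S` on infinite binary words (letters `0, 1` as naturals). -/
def S (u : ℕ → ℕ) : ℕ → ℕ := fun n => (u n + u (n + 1)) % 2

/-- The generalized Thue-Morse word `t_{b,2}`. -/
def tm (b : ℕ) : ℕ → ℕ := fun n => (Nat.digits b n).sum % 2

/-- The factor of `u` of length `m` starting at position `i`. -/
def factor (u : ℕ → ℕ) (i m : ℕ) : List ℕ := (List.range m).map fun j => u (i + j)

/-- The set of distinct palindromic factors of a finite word (the empty word included). -/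
def palFactors (w : List ℕ) : Set (List ℕ) := {v | v <:+: w ∧ v.reverse = v}

/-- An infinite word is rich if each finite factor `w` has `|w| + 1` palindromic factors. -/
def Rich (u : ℕ → ℕ) : Prop :=
  ∀ i m, (palFactors (factor u i m)).ncard = (factor u i m).length + 1

lemma pal_eq (w : List ℕ) : palFactors w =
    ↑(((w.tails.flatMap List.inits).filter fun v => v.reverse = v).toFinset) := by
  ext v
  simp only [palFactors, Set.mem_setOf_eq, List.coe_toFinset, List.mem_filter, List.mem_flatMap,
    List.mem_tails, List.mem_inits, decide_eq_true_eq, List.infix_iff_prefix_suffix]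
  constructor
  · rintro ⟨⟨t, h1, h2⟩, h⟩; exact ⟨⟨t, h2, h1⟩, h⟩
  · rintro ⟨⟨t, h1, h2⟩, h⟩; exact ⟨⟨t, h2, h1⟩, h⟩

theorem result : ¬ ∀ b k : ℕ, 2 ≤ b → 1 ≤ k → Rich (S^[k] (tm b)) := by
  intro h
  have h1 := h 6 9 (by norm_num) (by norm_num) 0 34
  rw [pal_eq, Set.ncard_coe_finset] at h1
  revert h1
  decide +kernel

end Pool.Agent.Results.MP_dfec24_co.Counter
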